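import Mathlib

namespace Pool.Agent.Results.MP_dca5dd_al.Length

variable {V : Type} [AddCommGroup V] [Module ℂ V] {n : ℕ}

inductive Word (f : (Fin n → V) → V) (S : Set V) : ℕ → V → Prop
  | base (s : V) : s ∈ S → Word f S 1 s
  | br (w : Fin n → V) (l : Fin n → ℕ) : (∀ t, Word f S (l t) (w t)) → Word f S (∑ t, l t) (f w)

def L (f : (Fin n → V) → V) (S : Set V) (i : ℕ) : Submodule ℂ V :=
  Submodule.span ℂ {w | ∃ l ≤ i, Word f S l w}

def IsFib (n a : ℕ) (F : ℕ → ℕ) : Prop :=
  (∀ m, 1 ≤ m → m ≤ a → F m = 1) ∧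
    ∀ m, a < m → F m = (n - a + 1) * F (m - 1) + ∑ i ∈ Finset.Icc 2 a, F (m - i)

theorem ml_span (f : MultilinearMap ℂ (fun _ : Fin n => V) V) (s : Fin n → Set V)
    (P : Submodule ℂ V) (h : ∀ x : Fin n → V, (∀ t, x t ∈ s t) → f x ∈ P) (x : Fin n → V)
    (hx : ∀ t, x t ∈ Submodule.span ℂ (s t)) : f x ∈ P := by
  simp only [Submodule.mem_span_set'] at hx
  choose m c g hg using hx
  have : x = fun t => ∑ i, c t i • (g t i : V) := funext fun t => (hg t).symm
  rw [this, MultilinearMap.map_sum]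
  refine P.sum_mem fun r _ => ?_
  rw [MultilinearMap.map_smul_univ]
  exact P.smul_mem _ (h _ fun t => (g t (r t)).2)

theorem L_mono (f : (Fin n → V) → V) (S : Set V) {i j : ℕ} (h : i ≤ j) : L f S i ≤ L f S j :=
  Submodule.span_mono fun _ ⟨l, hl, hw⟩ => ⟨l, hl.trans h, hw⟩

theorem L_br (f : MultilinearMap ℂ (fun _ : Fin n => V) V) (S : Set V) (l : Fin n → ℕ)
    (x : Fin n → V) (hx : ∀ t, x t ∈ L f S (l t)) : f x ∈ L f S (∑ t, l t) := by
  refine ml_span f (fun t => {w | ∃ k ≤ l t, Word f S k w}) _ (fun y hy => ?_) x hx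
  choose k hk hw using hy
  exact Submodule.subset_span ⟨_, Finset.sum_le_sum fun t _ => hk t, Word.br y k hw⟩

theorem top_sum (G : ℕ → ℕ) (hG : Monotone G) : ∀ (a j : ℕ) (T : Finset ℕ), T.card = a →
    (∀ x ∈ T, x < j) → ∑ x ∈ T, G x ≤ ∑ i ∈ Finset.range a, G (j - 1 - i) := by
  intro a
  induction a with
  | zero => intro j T h _; rw [Finset.card_eq_zero.1 h]; simp
  | succ a ih =>
    intro j T h hT
    have hne : T.Nonempty := Finset.card_pos.1 (by omega)
    have hm := T.max'_mem hne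
    rw [← Finset.sum_erase_add T G hm, Finset.sum_range_succ']
    have h1 := ih (j - 1) (T.erase (T.max' hne)) (by rw [Finset.card_erase_of_mem hm]; omega)
      (fun x hx => by
        have h2 := T.lt_max'_of_mem_erase_max' hne hx
        have h3 := hT _ hm
        omega)
    have h4 : G (T.max' hne) ≤ G (j - 1 - 0) := hG (by have := hT _ hm; omega)
    have h5 : ∑ i ∈ Finset.range a, G (j - 1 - 1 - i) = ∑ i ∈ Finset.range a, G (j - 1 - (i + 1)) :=
      Finset.sum_congr rfl fun i _ => by congr 1; omega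
    omega

theorem fib_mono {a : ℕ} {F : ℕ → ℕ} (hF : IsFib n a F) : Monotone fun i => F (i + 1) := by
  refine monotone_nat_of_le_succ fun m => ?_
  by_cases h : m + 1 + 1 ≤ a
  · rw [hF.1 _ (by omega) h, hF.1 _ (by omega) (by omega)]
  · rw [hF.2 (m + 1 + 1) (by omega), Nat.add_sub_cancel]
    nlinarith [Nat.zero_le ((n - a) * F (m + 1)), Nat.zero_le (∑ i ∈ Finset.Icc 2 a, F (m + 1 + 1 - i))]

theorem fib_bound {F : ℕ → ℕ} (A : Finset (Fin n)) (hA : A.Nonempty) (hF : IsFib n A.card F)
    {j : ℕ} (s : Fin n → Fin j) (hs : Set.InjOn s A) : ∑ t, F (s t + 1) ≤ F (j + 1) := by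
  have hm := fib_mono hF
  have ha : 0 < A.card := hA.card_pos
  have hj : A.card ≤ j := by
    have := Finset.card_le_card_of_injOn s (t := Finset.univ) (fun _ _ => by simp) hs
    simpa using this
  have h1 : ∑ t ∈ A, F (s t + 1) ≤ ∑ i ∈ Finset.range A.card, F (j - 1 - i + 1) := by
    have hi : Set.InjOn (fun t => (s t : ℕ)) A := fun x hx y hy h => hs hx hy (Fin.ext h)
    have := top_sum _ hm A.card j (A.image fun t => (s t : ℕ)) (Finset.card_image_of_injOn hi)
      (fun x hx => by
        obtain ⟨t, -, rfl⟩ := Finset.mem_image.1 hx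
        exact (s t).2)
    rwa [Finset.sum_image hi] at this
  have h2 : ∑ t ∈ Aᶜ, F (s t + 1) ≤ (n - A.card) * F j := by
    have := Finset.sum_le_card_nsmul Aᶜ (fun t => F (s t + 1)) (F (j - 1 + 1))
      (fun t _ => hm (by have := (s t).2; omega))
    rwa [Finset.card_compl, Fintype.card_fin, smul_eq_mul, Nat.sub_add_cancel (by omega)] at this
  have h3 : ∑ i ∈ Finset.range A.card, F (j - 1 - i + 1) =
      F j + ∑ i ∈ Finset.Icc 2 A.card, F (j + 1 - i) := by
    obtain ⟨b, hb⟩ : ∃ b, A.card = b + 1 := ⟨A.card - 1, by omega⟩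
    rw [hb, Finset.sum_range_succ', add_comm, ← Finset.Ico_add_one_right_eq_Icc,
      Finset.sum_Ico_eq_sum_range]
    congr 1
    · congr 1; omega
    · refine Finset.sum_congr (by congr 1) fun i hi => ?_
      have := Finset.mem_range.1 hi
      congr 1; omega
  rw [← Finset.sum_add_sum_compl A, hF.2 (j + 1) (by omega), Nat.add_sub_cancel]
  nlinarith

theorem main [FiniteDimensional ℂ V] (f : MultilinearMap ℂ (fun _ : Fin n => V) V)
    (A : Finset (Fin n)) (hA : A.Nonempty)
    (halt : ∀ i ∈ A, ∀ j ∈ A, i ≠ j → ∀ x : Fin n → V, f (x ∘ Equiv.swap i j) = -f x)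
    {F : ℕ → ℕ} (hF : IsFib n A.card F) (hk : 1 ≤ Module.finrank ℂ V) (S : Set V)
    (hS : ∀ x, ∃ i, x ∈ L f S i) : L f S (F (Module.finrank ℂ V)) = ⊤ := by
  have hm := fib_mono hF
  have hone : ∀ j, 1 ≤ F (j + 1) := fun j => by
    have h1 := hm (Nat.zero_le j)
    have h2 := hF.1 1 le_rfl hA.card_pos
    simp only [zero_add] at h1
    omega
  have key : ∀ j, (∀ i < j, L f S (F (i + 1)) ≠ ⊤) →
      ∃ u : Fin j → V, LinearIndependent ℂ u ∧ ∀ i : Fin j, u i ∈ L f S (F (i + 1)) := by
    intro j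
    induction j with
    | zero => intro _; exact ⟨Fin.elim0, linearIndependent_empty_type, fun i => i.elim0⟩
    | succ j ih =>
      intro h
      obtain ⟨u, hu, hL⟩ := ih fun i hi => h i (by omega)
      by_cases hle : L f S (F (j + 1)) ≤ Submodule.span ℂ (Set.range u)
      · exfalso
        apply h j (by omega)
        have hcl : ∀ x : Fin n → V, (∀ t, x t ∈ Submodule.span ℂ (Set.range u)) →
            f x ∈ Submodule.span ℂ (Set.range u) := by
          refine ml_span f (fun _ => Set.range u) _ fun y hy => ?_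
          choose s hs using hy
          by_cases hi : Set.InjOn s A
          · refine hle (L_mono _ _ (fib_bound A hA hF s hi) (L_br f S _ y fun t => ?_))
            rw [← hs t]; exact hL _
          · simp only [Set.InjOn, not_forall] at hi
            obtain ⟨p, hp, q, hq, hpq, hne⟩ := hi
            have h1 := halt p hp q hq hne y
            have h2 : y ∘ Equiv.swap p q = y := by
              funext t
              exact Equiv.apply_swap_eq_self (by rw [← hs p, ← hs q, hpq]) t
            rw [h2] at h1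
            have h3 : (2 : ℂ) • f y = 0 := by rw [two_smul]; exact add_eq_zero_iff_eq_neg.2 h1
            rw [(smul_eq_zero.1 h3).resolve_left two_ne_zero]
            exact Submodule.zero_mem _
        have hw : ∀ l w, Word f S l w → w ∈ Submodule.span ℂ (Set.range u) := by
          intro l w hw
          induction hw with
          | base s hs => exact hle (Submodule.subset_span ⟨1, hone j, Word.base s hs⟩)
          | br w l _ ih => exact hcl w ih
        have hge : Submodule.span ℂ (Set.range u) ≤ L f S (F (j + 1)) := by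
          rw [Submodule.span_le]
          rintro _ ⟨i, rfl⟩
          exact L_mono _ _ (hm (le_of_lt i.2)) (hL i)
        rw [eq_top_iff]
        intro x _
        obtain ⟨i, hi⟩ := hS x
        refine hge (Submodule.span_le.2 ?_ hi)
        rintro w ⟨l, -, hl⟩
        exact hw l w hl
      · obtain ⟨x, hx, hx'⟩ := SetLike.not_le_iff_exists.1 hle
        refine ⟨Fin.snoc u x, linearIndependent_finSnoc.2 ⟨hu, hx'⟩, fun i => ?_⟩
        refine Fin.lastCases ?_ (fun i => ?_) i
        · simpa using hx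
        · simpa using hL i
  by_contra hne
  obtain ⟨k, hk'⟩ : ∃ k, Module.finrank ℂ V = k + 1 := ⟨Module.finrank ℂ V - 1, by omega⟩
  rw [hk'] at hne
  obtain ⟨u, hu, hL⟩ := key (k + 1) fun i hi h =>
    hne (eq_top_iff.2 (h ▸ L_mono _ _ (hm (by omega : i ≤ k))))
  apply hne
  rw [eq_top_iff, ← hu.span_eq_top_of_card_eq_finrank' (by simp [hk']), Submodule.span_le]
  rintro _ ⟨i, rfl⟩
  exact L_mono _ _ (hm (by have := i.2; omega : (i : ℕ) ≤ k)) (hL i)

theorem result (n : ℕ) (hn : 2 ≤ n) (A C : Finset (Fin n)) (_hAC : Disjoint A C)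
    (_hA : A.card ≠ 1) (k : ℕ) (hk : 1 ≤ k)
    (V : Type) [AddCommGroup V] [Module ℂ V] [FiniteDimensional ℂ V]
    (hV : Module.finrank ℂ V = k) (f : MultilinearMap ℂ (fun _ : Fin n => V) V)
    (halt : ∀ i ∈ A, ∀ j ∈ A, i ≠ j → ∀ x : Fin n → V, f (x ∘ Equiv.swap i j) = -f x)
    (_hsym : ∀ i ∈ C, ∀ j ∈ C, i ≠ j → ∀ x : Fin n → V, f (x ∘ Equiv.swap i j) = f x)
    (F : ℕ → ℕ) (hF : IsFib n (max A.card 1) F)
    (S : Set V) (hS : ∀ x, ∃ i, x ∈ L f S i) : L f S (F k) = ⊤ := by
  subst hV
  rcases A.eq_empty_or_nonempty with rfl | hA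
  · refine main f {⟨0, by omega⟩} (Finset.singleton_nonempty _) ?_ (by simpa using hF) hk S hS
    intro i hi j hj hne
    rw [Finset.mem_singleton] at hi hj
    exact absurd (hi.trans hj.symm) hne
  · exact main f A hA halt (by rwa [max_eq_left hA.card_pos] at hF) hk S hS

end Pool.Agent.Results.MP_dca5dd_al.Length
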